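import Pool.Agent.V11304.JS.Hasse

/-!
# The character sums of the curves with complex multiplication by `√-7`
-/

set_option autoImplicit false

namespace Pool.Agent.V11304.JS

open Finset Polynomial

section
variable {p : ℕ} [hp : Fact p.Prime]

lemma T_zero_aux {K : Type*} [Field K] [CharP K p] {n : ℕ} (hn : p = 2 * n + 1) {u : K}
    (hu2 : u ^ 2 = u - 2) (hup : u ^ (2 * n + 1) = 1 - u) (hw0 : 2 * u - 1 ≠ 0) :
    T n (21 : K) 112 = 0 := by
  set h : K := T n 21 112 with hh
  have e1 : T n (3 * u - 12) (7 - 21 * u) = h := by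
    rw [hh, ← T_trans hn (a := 21) (b := 112) (s := u - 11)]
    · congr 1
      · ring
      · linear_combination (-3 : K) * hu2
    · linear_combination (u - 11) * hu2
  have e2 : T n (24 - 6 * u) (21 * u + 98) = h := by
    rw [← e1, ← T_iso hn (3 * u - 12)]
    congr 1
    · ring
    · linear_combination (-9 : K) * hu2
  have e3 : T n (24 - 6 * u) (21 * u + 98) = T n (u ^ 2 * 21) ((u ^ 2) ^ 2 * 112) := by
    rw [← T_trans hn (a := u ^ 2 * 21) (b := (u ^ 2) ^ 2 * 112) (s := 22 - 9 * u)]
    · congr 1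
      · linear_combination (-21 : K) * hu2
      · rw [hu2]
        linear_combination (23 : K) * hu2
    · rw [hu2]
      linear_combination (22 - 9 * u) * 4 * hu2
  rw [T_scale, ← hh, e2, ← pow_mul] at e3
  have e4 : u * h = (1 - u) * h := by
    calc u * h = u * (u ^ (2 * n) * h) := by rw [← e3]
      _ = u ^ (2 * n + 1) * h := by ring
      _ = (1 - u) * h := by rw [hup]
  have e5 : (2 * u - 1) * h = 0 := by linear_combination e4
  exact (mul_eq_zero.mp e5).resolve_left hw0

lemma two_ne_zero' {K : Type*} [Field K] [CharP K p] {n : ℕ} (hn : p = 2 * n + 1) :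
    (2 : K) ≠ 0 := by
  have h1 : ((2 : ℕ) : K) ≠ 0 := by
    rw [Ne, CharP.cast_eq_zero_iff K p]
    intro h
    have h2 := Nat.le_of_dvd (by norm_num) h
    have h3 := hp.out.two_le
    omega
  exact_mod_cast h1

lemma T_zero {n : ℕ} (hn : p = 2 * n + 1) (h7 : quadraticChar (ZMod p) (-7) = -1) :
    T n (21 : ZMod p) 112 = 0 := by
  have hK : CharP (AlgebraicClosure (ZMod p)) p :=
    charP_of_injective_algebraMap (algebraMap (ZMod p) (AlgebraicClosure (ZMod p))).injective p
  have hchar : ringChar (ZMod p) ≠ 2 := by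
    rw [ZMod.ringChar_zmod_n]
    omega
  have h70 : (-7 : ZMod p) ≠ 0 := by
    intro h
    rw [h] at h7
    simp at h7
  have hpow : (-7 : ZMod p) ^ n = -1 := by
    have h1 := quadraticChar_eq_pow_of_char_ne_two' hchar (-7 : ZMod p)
    rw [h7, ZMod.card, show p / 2 = n by omega] at h1
    rw [← h1]
    simp
  have h7K : algebraMap (ZMod p) (AlgebraicClosure (ZMod p)) (-7) = -7 := by
    rw [map_neg, map_ofNat]
  have hpowK : (-7 : AlgebraicClosure (ZMod p)) ^ n = -1 := by
    have h1 := congrArg (algebraMap (ZMod p) (AlgebraicClosure (ZMod p))) hpow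
    rw [map_pow, h7K, map_neg, map_one] at h1
    exact h1
  have h70K : (-7 : AlgebraicClosure (ZMod p)) ≠ 0 := by
    intro h
    apply h70
    apply (algebraMap (ZMod p) (AlgebraicClosure (ZMod p))).injective
    rw [h7K, h, map_zero]
  have h2K : (2 : AlgebraicClosure (ZMod p)) ≠ 0 := two_ne_zero' hn
  obtain ⟨w, hw⟩ := IsAlgClosed.exists_pow_nat_eq (-7 : AlgebraicClosure (ZMod p)) (n := 2)
    (by norm_num)
  obtain ⟨u, hu⟩ : ∃ u : AlgebraicClosure (ZMod p), 2 * u - 1 = w := by
    refine ⟨(w + 1) * 2⁻¹, ?_⟩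
    rw [mul_comm (w + 1), ← mul_assoc, mul_inv_cancel₀ h2K]
    ring
  have hu2 : u ^ 2 = u - 2 := by
    have h1 : 4 * (u ^ 2 - u + 2) = 0 := by
      rw [← hu] at hw
      linear_combination hw
    have h4 : (4 : AlgebraicClosure (ZMod p)) ≠ 0 := by
      rw [show (4 : AlgebraicClosure (ZMod p)) = 2 * 2 by norm_num]
      exact mul_ne_zero h2K h2K
    have h2 := (mul_eq_zero.mp h1).resolve_left h4
    linear_combination h2
  have hup : u ^ (2 * n + 1) = 1 - u := by
    have h1 : w ^ (2 * n + 1) = -w := by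
      rw [pow_succ, pow_mul, hw, hpowK]
      ring
    have h5 : w ^ (2 * n + 1) = 2 * u ^ (2 * n + 1) - 1 := by
      have h2 : (2 : AlgebraicClosure (ZMod p)) ^ p = 2 := by
        have h3 := congrArg (algebraMap (ZMod p) (AlgebraicClosure (ZMod p)))
          (ZMod.pow_card (2 : ZMod p))
        rw [map_pow, map_ofNat] at h3
        exact h3
      have h6 : w ^ p = 2 * u ^ p - 1 := by
        rw [← hu, sub_pow_char, one_pow, mul_pow, h2]
      have e : ∀ z : AlgebraicClosure (ZMod p), z ^ (2 * n + 1) = z ^ p :=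
        fun z => congrArg (fun k => z ^ k) hn.symm
      rw [e, e]
      exact h6
    have h3 : 2 * (u ^ (2 * n + 1) - (1 - u)) = 0 := by
      rw [h1, ← hu] at h5
      linear_combination -h5
    have h4 := (mul_eq_zero.mp h3).resolve_left h2K
    linear_combination h4
  have hw0 : 2 * u - 1 ≠ 0 := by
    rw [hu]
    intro h0
    rw [h0] at hw
    apply h70K
    rw [← hw]
    ring
  apply (algebraMap (ZMod p) (AlgebraicClosure (ZMod p))).injective
  rw [T_map, map_zero, map_ofNat, map_ofNat]
  exact T_zero_aux hn hu2 hup hw0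

lemma T_zero' {n : ℕ} (hn : p = 2 * n + 1) (h7 : quadraticChar (ZMod p) (-7) = -1) :
    T n (42 : ZMod p) (-7) = 0 := by
  have h1 := T_iso hn (21 : ZMod p) 112
  rw [T_zero hn h7] at h1
  have h2 := T_scale n (-2 * 21 : ZMod p) (21 ^ 2 - 4 * 112) (-1)
  rw [h1, mul_zero] at h2
  rw [← h2]
  congr 1 <;> norm_num

lemma sum_eval (G : (ZMod p)[X]) (hG : G.natDegree < 2 * p - 2) :
    ∑ x : ZMod p, G.eval x = - G.coeff (p - 1) := by
  have h2 := hp.out.two_le
  simp_rw [eval_eq_sum_range' hG]
  rw [sum_comm]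
  have h1 : ∀ i ∈ range (2 * p - 2), ∑ x : ZMod p, G.coeff i * x ^ i =
      if i = p - 1 then -G.coeff (p - 1) else 0 := by
    intro i hi
    rw [mem_range] at hi
    rw [← mul_sum]
    split_ifs with h
    · have h3 : ∑ x : ZMod p, x ^ i = -1 := by
        rw [h, ← sum_erase_add _ _ (mem_univ (0 : ZMod p)), zero_pow (by omega), add_zero]
        have h4 : ∀ x ∈ (univ : Finset (ZMod p)).erase 0, x ^ (p - 1) = 1 := by
          intro x hx
          exact ZMod.pow_card_sub_one_eq_one (ne_of_mem_erase hx)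
        rw [sum_congr rfl h4, sum_const, card_erase_of_mem (mem_univ _), card_univ, ZMod.card,
          nsmul_eq_mul, Nat.cast_sub (by omega)]
        simp
      rw [h3, h]
      ring
    · rcases Nat.lt_or_ge i (p - 1) with h5 | h5
      · have := FiniteField.sum_pow_lt_card_sub_one (ZMod p) i (by rw [ZMod.card]; exact h5)
        rw [this, mul_zero]
      · have h6 : ∑ x : ZMod p, x ^ i = ∑ x : ZMod p, x ^ (i - (p - 1)) := by
          rw [← sub_eq_zero, ← sum_sub_distrib]
          have h7 : ∀ x : ZMod p, x ^ i - x ^ (i - (p - 1)) = 0 := by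
            intro x
            by_cases hx : x = 0
            · rw [hx, zero_pow (by omega), zero_pow (by omega), sub_self]
            · have h8 : x ^ i = x ^ (p - 1) * x ^ (i - (p - 1)) := by
                rw [← pow_add]
                congr 1
                omega
              rw [h8, ZMod.pow_card_sub_one_eq_one hx, one_mul, sub_self]
          rw [sum_congr rfl fun x _ => h7 x, sum_const_zero]
        have := FiniteField.sum_pow_lt_card_sub_one (ZMod p) (i - (p - 1))
          (by rw [ZMod.card]; omega)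
        rw [h6, this, mul_zero]
  rw [sum_congr rfl h1, sum_ite_eq' (range (2 * p - 2)) (p - 1)]
  split_ifs with h3
  · rfl
  · rw [mem_range] at h3
    have h4 : p = 2 := by
      have := hp.out.eq_one_or_self_of_dvd
      omega
    omega

/-- a cubic character sum vanishes if the Hasse invariant does -/
lemma sum_char_zero {n : ℕ} (hn : p = 2 * n + 1) {a b : ZMod p} (hT : T n a b = 0) :
    ∑ t : ZMod p, quadraticChar (ZMod p) (t * (t ^ 2 + a * t + b)) = 0 := by
  have h2 := hp.out.two_le
  have hchar : ringChar (ZMod p) ≠ 2 := by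
    rw [ZMod.ringChar_zmod_n]
    omega
  have h1 : ((∑ t : ZMod p, quadraticChar (ZMod p) (t * (t ^ 2 + a * t + b)) : ℤ) : ZMod p)
      = 0 := by
    rw [Int.cast_sum]
    have h3 : ∀ t : ZMod p, ((quadraticChar (ZMod p) (t * (t ^ 2 + a * t + b)) : ℤ) : ZMod p) =
        ((X ^ 3 + C a * X ^ 2 + C b * X) ^ n : (ZMod p)[X]).eval t := by
      intro t
      rw [quadraticChar_eq_pow_of_char_ne_two' hchar, ZMod.card, show p / 2 = n by omega]
      simp only [eval_pow, eval_add, eval_mul, eval_X, eval_C]
      congr 1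
      ring
    rw [sum_congr rfl fun t _ => h3 t, sum_eval, show p - 1 = 2 * n by omega, coeff_cubic, hT,
      neg_zero]
    have := natDegree_cubic_pow n a b
    omega
  rw [ZMod.intCast_zmod_eq_zero_iff_dvd] at h1
  apply Int.eq_zero_of_abs_lt_dvd h1
  rw [← sum_erase_add _ _ (mem_univ (0 : ZMod p)), zero_mul, quadraticChar_zero, add_zero]
  calc |∑ t ∈ (univ : Finset (ZMod p)).erase 0, quadraticChar (ZMod p) (t * (t ^ 2 + a * t + b))|
      ≤ ∑ t ∈ (univ : Finset (ZMod p)).erase 0,
        |quadraticChar (ZMod p) (t * (t ^ 2 + a * t + b))| := abs_sum_le_sum_abs _ _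
    _ ≤ ∑ t ∈ (univ : Finset (ZMod p)).erase 0, 1 := by
        apply sum_le_sum
        intro t _
        rcases eq_or_ne (t * (t ^ 2 + a * t + b)) 0 with h | h
        · rw [h, quadraticChar_zero]
          simp
        · rcases quadraticChar_dichotomy h with h' | h' <;> rw [h'] <;> simp
    _ = (p : ℤ) - 1 := by
        rw [sum_const, card_erase_of_mem (mem_univ _), card_univ, ZMod.card, nsmul_eq_mul,
          mul_one, Nat.cast_sub (by omega)]
        simp
    _ < p := by linarith

end

end Pool.Agent.V11304.JS
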