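import Pool.Agent.V11304.JS.Char
import Pool.Agent.Y290.SC.Fld

/-!
# Vanishing of determinants of Jacobi symbols of binary quadratic forms
-/

set_option autoImplicit false

namespace Pool.Agent.V11304.JS

open Finset

lemma sum_zmod {M : Type*} [AddCommMonoid M] {p : ℕ} [NeZero p] (f : ZMod p → M) :
    ∑ x : ZMod p, f x = ∑ i ∈ range p, f (i : ZMod p) := by
  symm
  refine sum_bij' (fun i _ => (i : ZMod p)) (fun x _ => x.val) ?_ ?_ ?_ ?_ ?_
  · intro i _
    exact mem_univ _
  · intro x _
    exact mem_range.mpr (ZMod.val_lt x)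
  · intro i hi
    exact ZMod.val_cast_of_lt (mem_range.mp hi)
  · intro x _
    exact ZMod.natCast_zmod_val x
  · intro i _
    rfl

section
variable {p : ℕ} [hp : Fact p.Prime]

/-- the properties of the pair `(c, d)` used below -/
structure Good (c d : ℤ) : Prop where
  T0 : ∀ (p : ℕ) [Fact p.Prime] (n : ℕ), p = 2 * n + 1 → quadraticChar (ZMod p) (-7) = -1 →
    T n (c : ZMod p) (d : ZMod p) = 0
  disc : ∀ (p : ℕ) [Fact p.Prime], p ≠ 2 → quadraticChar (ZMod p) (-7) = -1 →
    (c ^ 2 - 4 * d : ZMod p) ≠ 0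
  chi : ∀ (p : ℕ) [Fact p.Prime], p % 4 = 1 → quadraticChar (ZMod p) (-7) = -1 →
    quadraticChar (ZMod p) (d : ZMod p) = -1

lemma two_ne (h2 : p ≠ 2) : (2 : ZMod p) ≠ 0 := by
  have h1 : ((2 : ℕ) : ZMod p) ≠ 0 := by
    rw [Ne, ZMod.natCast_eq_zero_iff]
    intro h
    exact h2 ((Nat.prime_dvd_prime_iff_eq hp.out Nat.prime_two).mp h)
  exact_mod_cast h1

lemma neg7_ne (h7 : quadraticChar (ZMod p) (-7) = -1) : (-7 : ZMod p) ≠ 0 := by
  intro h
  rw [h] at h7
  simp at h7

lemma good_one : Good 42 (-7) where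
  T0 p _ n hn h7 := by
    have := T_zero' hn h7
    push_cast
    exact this
  disc p _ h2 h7 := by
    have h3 := neg7_ne h7
    have h4 := two_ne h2
    have h5 : ((42 : ℤ) ^ 2 - 4 * (-7 : ℤ) : ZMod p) = (-7) * (-1) * 2 ^ 8 := by
      push_cast
      norm_num
    rw [h5]
    exact mul_ne_zero (mul_ne_zero h3 (by simp)) (pow_ne_zero _ h4)
  chi p _ _ h7 := by
    push_cast
    exact h7

lemma good_two : Good 21 112 where
  T0 p _ n hn h7 := by
    have := T_zero hn h7
    push_cast
    exact this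
  disc p _ h2 h7 := by
    have h3 := neg7_ne h7
    have h5 : ((21 : ℤ) ^ 2 - 4 * (112 : ℤ) : ZMod p) = -7 := by
      push_cast
      norm_num
    rw [h5]
    exact h3
  chi p _ h4 h7 := by
    have h2 : p ≠ 2 := by
      rintro rfl
      omega
    have h5 : ((112 : ℤ) : ZMod p) = (-7) * (-1) * 4 ^ 2 := by
      push_cast
      norm_num
    have h6 : (4 : ZMod p) ≠ 0 := by
      rw [show (4 : ZMod p) = 2 * 2 by norm_num]
      exact mul_ne_zero (two_ne h2) (two_ne h2)
    have h8 : ringChar (ZMod p) ≠ 2 := by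
      rw [ZMod.ringChar_zmod_n]
      exact h2
    have h7' : quadraticChar (ZMod p) (-1) = 1 := by
      rw [quadraticChar_one_iff_isSquare (by simp)]
      exact ZMod.exists_sq_eq_neg_one_iff.mpr (by omega)
    rw [h5, map_mul, map_mul, h7, h7', quadraticChar_sq_one' h6]
    norm_num

lemma chi_cube (x : ZMod p) : quadraticChar (ZMod p) x ^ 2 * quadraticChar (ZMod p) x =
    quadraticChar (ZMod p) x := by
  rcases eq_or_ne x 0 with h | h
  · rw [h]
    simp
  · rcases quadraticChar_dichotomy h with h' | h' <;> rw [h'] <;> norm_num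

/-- the sum of `χ(j² + c j x + d x²) χ(x)` vanishes -/
lemma sum_mixed (h2 : p ≠ 2) {c d : ZMod p}
    (h0 : ∑ t : ZMod p, quadraticChar (ZMod p) (t * (t ^ 2 + c * t + d)) = 0) (j : ZMod p) :
    ∑ x : ZMod p, quadraticChar (ZMod p) (j ^ 2 + c * j * x + d * x ^ 2) *
      quadraticChar (ZMod p) x = 0 := by
  have hchar : ringChar (ZMod p) ≠ 2 := by
    rw [ZMod.ringChar_zmod_n]
    exact h2
  rcases eq_or_ne j 0 with hj | hj
  · rw [hj]
    have h1 : ∀ x : ZMod p, quadraticChar (ZMod p) ((0 : ZMod p) ^ 2 + c * 0 * x + d * x ^ 2) *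
        quadraticChar (ZMod p) x = quadraticChar (ZMod p) d * quadraticChar (ZMod p) x := by
      intro x
      rw [show (0 : ZMod p) ^ 2 + c * 0 * x + d * x ^ 2 = d * x ^ 2 by ring, map_mul, map_pow,
        mul_assoc, chi_cube]
    rw [sum_congr rfl fun x _ => h1 x, ← mul_sum, quadraticChar_sum_zero hchar, mul_zero]
  · have h1 : ∑ x : ZMod p, quadraticChar (ZMod p) (j ^ 2 + c * j * x + d * x ^ 2) *
        quadraticChar (ZMod p) x = ∑ t : ZMod p, quadraticChar (ZMod p) j *
          quadraticChar (ZMod p) (t * (t ^ 2 + c * t + d)) := by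
      refine (Fintype.sum_bijective (fun t : ZMod p => j * t⁻¹) ?_ _ _ ?_).symm
      · constructor
        · intro a b hab
          have := mul_left_cancel₀ hj hab
          exact inv_injective this
        · intro y
          refine ⟨j * y⁻¹, ?_⟩
          rcases eq_or_ne y 0 with h | h
          · simp [h]
          · field_simp
      · intro t
        rcases eq_or_ne t 0 with h | h
        · simp [h]
        · have h3 : j ^ 2 + c * j * (j * t⁻¹) + d * (j * t⁻¹) ^ 2 =
              (j * t⁻¹) ^ 2 * (t ^ 2 + c * t + d) := by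
            field_simp
          have h4 : quadraticChar (ZMod p) t⁻¹ = quadraticChar (ZMod p) t := by
            have h5 : t⁻¹ = t * (t⁻¹) ^ 2 := by
              field_simp
            rw [h5, map_mul, quadraticChar_sq_one' (inv_ne_zero h), mul_one]
          rw [h3, map_mul (quadraticChar (ZMod p)) ((j * t⁻¹) ^ 2),
            quadraticChar_sq_one' (mul_ne_zero hj (inv_ne_zero h)), one_mul,
            map_mul (quadraticChar (ZMod p)) j, h4, map_mul (quadraticChar (ZMod p)) t]
          ring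
    rw [h1, ← mul_sum, h0, mul_zero]

lemma sum_quad (h2 : p ≠ 2) {c d j : ZMod p} (hd : d ≠ 0) (hD : c ^ 2 - 4 * d ≠ 0)
    (hj : j ≠ 0) :
    ∑ x : ZMod p, quadraticChar (ZMod p) (j ^ 2 + c * j * x + d * x ^ 2) =
      - quadraticChar (ZMod p) d := by
  have h20 := two_ne h2
  have h1 : ∑ x : ZMod p, quadraticChar (ZMod p) d *
      quadraticChar (ZMod p) (j ^ 2 + c * j * x + d * x ^ 2) =
      ∑ y : ZMod p, quadraticChar (ZMod p) (y ^ 2 - (c ^ 2 - 4 * d) * j ^ 2) := by
    refine Fintype.sum_bijective (fun x : ZMod p => 2 * d * x + c * j) ?_ _ _ ?_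
    · constructor
      · intro a b hab
        have h3 : 2 * d * a = 2 * d * b := by
          simpa using hab
        exact mul_left_cancel₀ (mul_ne_zero h20 hd) h3
      · intro y
        refine ⟨(y - c * j) * (2 * d)⁻¹, ?_⟩
        have h3 : 2 * d * (2 * d)⁻¹ = 1 := mul_inv_cancel₀ (mul_ne_zero h20 hd)
        show 2 * d * ((y - c * j) * (2 * d)⁻¹) + c * j = y
        linear_combination (y - c * j) * h3
    · intro x
      have h3 : (2 * d * x + c * j) ^ 2 - (c ^ 2 - 4 * d) * j ^ 2 =
          2 ^ 2 * (d * (j ^ 2 + c * j * x + d * x ^ 2)) := by ring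
      show _ = quadraticChar (ZMod p) ((2 * d * x + c * j) ^ 2 - (c ^ 2 - 4 * d) * j ^ 2)
      rw [h3, map_mul, quadraticChar_sq_one' h20, one_mul, map_mul]
  have h3 : ∑ y : ZMod p, quadraticChar (ZMod p) (y ^ 2 - (c ^ 2 - 4 * d) * j ^ 2) = -1 := by
    have key : ∀ inst : DecidableEq (ZMod p), ∑ y : ZMod p,
        @quadraticChar (ZMod p) _ _ inst (y ^ 2 - (c ^ 2 - 4 * d) * j ^ 2) = -1 := by
      intro inst
      have e : inst = fun a b => Classical.propDecidable (a = b) := Subsingleton.elim _ _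
      rw [e]
      exact Pool.Agent.Y290.SC.jac h20 (mul_ne_zero hD (pow_ne_zero 2 hj))
    exact key _
  rw [h3, ← mul_sum] at h1
  have h4 : quadraticChar (ZMod p) d ^ 2 = 1 := quadraticChar_sq_one hd
  calc ∑ x : ZMod p, quadraticChar (ZMod p) (j ^ 2 + c * j * x + d * x ^ 2)
      = quadraticChar (ZMod p) d ^ 2 *
        ∑ x : ZMod p, quadraticChar (ZMod p) (j ^ 2 + c * j * x + d * x ^ 2) := by
        rw [h4, one_mul]
    _ = quadraticChar (ZMod p) d * (quadraticChar (ZMod p) d *
        ∑ x : ZMod p, quadraticChar (ZMod p) (j ^ 2 + c * j * x + d * x ^ 2)) := by ring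
    _ = - quadraticChar (ZMod p) d := by rw [h1]; ring

end

/-- the determinant `{c, d}_n` -/
noncomputable def br (c d : ℤ) (n : ℕ) : ℤ :=
  Matrix.det (Matrix.of fun j k : Finset.Ioo (1 : ℤ) ((n : ℤ) - 1) =>
    jacobiSym ((j : ℤ) ^ 2 + c * j * k + d * (k : ℤ) ^ 2) n)

lemma exists_prime {n : ℕ} (h : jacobiSym n 7 = -1) :
    ∃ p : ℕ, p.Prime ∧ p ∣ n ∧ jacobiSym p 7 = -1 := by
  by_contra hcon
  push Not at hcon
  revert h
  revert hcon
  induction n using Nat.recOnMul with
  | zero =>
    intro _ h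
    norm_num at h
  | one =>
    intro _ h
    norm_num at h
  | prime p hp =>
    intro hcon h
    exact hcon p hp dvd_rfl h
  | mul a b ha hb =>
    intro hcon h
    have ha' := ha (fun p hp hd => hcon p hp (hd.mul_right b))
    have hb' := hb (fun p hp hd => hcon p hp (hd.mul_left a))
    rw [Nat.cast_mul, jacobiSym.mul_left] at h
    rcases jacobiSym.trichotomy (a : ℤ) 7 with h1 | h1 | h1 <;>
      rcases jacobiSym.trichotomy (b : ℤ) 7 with h2 | h2 | h2 <;> simp_all

lemma chi_neg7 {p : ℕ} [hp : Fact p.Prime] (h2 : p ≠ 2) (h : jacobiSym p 7 = -1) :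
    quadraticChar (ZMod p) (-7) = -1 := by
  have hodd : Odd p := hp.out.odd_of_ne_two h2
  have h1 : jacobiSym (-7) p = -1 := by
    rw [show (-7 : ℤ) = -1 * (7 : ℕ) by norm_num, jacobiSym.mul_left, jacobiSym.at_neg_one hodd]
    have h44 : p % 4 = 1 ∨ p % 4 = 3 := by
      have := Nat.odd_iff.mp hodd
      omega
    rcases h44 with h4 | h4
    · rw [ZMod.χ₄_nat_one_mod_four h4, one_mul,
        ← jacobiSym.quadratic_reciprocity_one_mod_four h4 (by decide)]
      exact_mod_cast h
    · rw [ZMod.χ₄_nat_three_mod_four h4,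
        jacobiSym.quadratic_reciprocity_three_mod_four (by norm_num) h4]
      rw [h]
      norm_num
  rw [← jacobiSym.legendreSym.to_jacobiSym, legendreSym] at h1
  push_cast at h1
  exact h1

lemma jac_add {p m : ℕ} (hm : p ∣ m) (hp0 : p ≠ 0) (hm0 : m ≠ 0) (x y : ℤ) :
    jacobiSym (x + m * y) (p * m) = jacobiSym x (p * m) := by
  have hp1 : NeZero p := ⟨hp0⟩
  have hm1 : NeZero m := ⟨hm0⟩
  rw [jacobiSym.mul_right, jacobiSym.mul_right]
  congr 1
  · apply jacobiSym.mod_left'
    obtain ⟨r, hr⟩ := hm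
    rw [hr]
    push_cast
    rw [mul_assoc]
    exact Int.add_mul_emod_self_left _ _ _
  · apply jacobiSym.mod_left'
    exact Int.add_mul_emod_self_left _ _ _

/-- the case in which the square of the prime divides `n` -/
lemma br_sq {c d : ℤ} {p m : ℕ} (hp3 : 3 ≤ p) (hm3 : 3 ≤ m) (hm : p ∣ m) : br c d (p * m) = 0 := by
  have hpm : (3 : ℤ) * m ≤ p * m := by
    have : (3 : ℤ) ≤ p := by exact_mod_cast hp3
    have hm0 : (0 : ℤ) ≤ m := by positivity
    nlinarith
  have hm3' : (3 : ℤ) ≤ m := by exact_mod_cast hm3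
  have h1 : (2 : ℤ) ∈ Finset.Ioo (1 : ℤ) (((p * m : ℕ) : ℤ) - 1) := by
    rw [mem_Ioo]
    push_cast
    exact ⟨by norm_num, by linarith⟩
  have h2 : (2 + m : ℤ) ∈ Finset.Ioo (1 : ℤ) (((p * m : ℕ) : ℤ) - 1) := by
    rw [mem_Ioo]
    push_cast
    constructor <;> linarith
  unfold br
  apply Matrix.det_zero_of_column_eq (i := ⟨2, h1⟩) (j := ⟨2 + m, h2⟩)
  · intro h
    have := congrArg Subtype.val h
    simp only at this
    linarith
  · intro k
    simp only [Matrix.of_apply]
    rw [← jac_add hm (by omega) (by omega) _ (c * k + d * (4 + m))]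
    congr 1
    ring

section
variable {p : ℕ} [hp : Fact p.Prime]

lemma sum_char_good {c d : ℤ} (hg : Good c d) (h2 : p ≠ 2)
    (h7 : quadraticChar (ZMod p) (-7) = -1) (j : ZMod p) :
    ∑ x : ZMod p, quadraticChar (ZMod p) (j ^ 2 + c * j * x + d * x ^ 2) *
      quadraticChar (ZMod p) x = 0 := by
  apply sum_mixed h2
  obtain ⟨n, hn⟩ := hp.out.odd_of_ne_two h2
  exact sum_char_zero hn (hg.T0 p n hn h7)

/-- the case of `n = p m` with `m` prime to `p` and `m > 1` -/
lemma br_comp {c d : ℤ} (hg : Good c d) (h2 : p ≠ 2) (h7 : quadraticChar (ZMod p) (-7) = -1)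
    {m : ℕ} (hm3 : 3 ≤ m) (hm : ¬ p ∣ m) : br c d (p * m) = 0 := by
  have hm1 : NeZero m := ⟨by omega⟩
  have hp3 : 3 ≤ p := by
    have := hp.out.two_le
    omega
  have hpm : (3 : ℤ) * m ≤ p * m := by
    have : (3 : ℤ) ≤ p := by exact_mod_cast hp3
    have hm0 : (0 : ℤ) ≤ m := by positivity
    nlinarith
  have hm3' : (3 : ℤ) ≤ m := by exact_mod_cast hm3
  have hm0 : (m : ZMod p) ≠ 0 := by
    rw [Ne, ZMod.natCast_eq_zero_iff]
    exact hm
  have hmem : (m : ℤ) ∈ Finset.Ioo (1 : ℤ) (((p * m : ℕ) : ℤ) - 1) := by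
    rw [mem_Ioo]
    push_cast
    exact ⟨by linarith, by linarith⟩
  unfold br
  rw [← Matrix.exists_mulVec_eq_zero_iff]
  refine ⟨fun k => if (m : ℤ) ∣ (k : ℤ) then legendreSym p (k : ℤ) else 0, ?_, ?_⟩
  · intro h
    have h3 := congrFun h ⟨(m : ℤ), hmem⟩
    simp only [dvd_refl, if_true, Pi.zero_apply] at h3
    rw [legendreSym.eq_zero_iff] at h3
    apply hm0
    exact_mod_cast h3
  · funext j
    simp only [Matrix.mulVec, dotProduct, Matrix.of_apply, Pi.zero_apply]
    rw [Finset.sum_coe_sort (Finset.Ioo (1 : ℤ) (((p * m : ℕ) : ℤ) - 1))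
      (fun k : ℤ => jacobiSym ((j : ℤ) ^ 2 + c * j * k + d * k ^ 2) (p * m) *
        if (m : ℤ) ∣ k then legendreSym p k else 0)]
    set J : ℤ := (j : ℤ) with hJ
    have e1 : ∑ i ∈ Ico 1 p, jacobiSym (J ^ 2 + c * J * (m * i) + d * (m * i) ^ 2) (p * m) *
        legendreSym p (m * i) = ∑ k ∈ Finset.Ioo (1 : ℤ) (((p * m : ℕ) : ℤ) - 1),
        (jacobiSym (J ^ 2 + c * J * k + d * k ^ 2) (p * m) *
        if (m : ℤ) ∣ k then legendreSym p k else 0) := by
      apply Finset.sum_of_injOn (fun i : ℕ => (m : ℤ) * i)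
      · intro a _ b _ hab
        have h3 : (m : ℤ) ≠ 0 := by linarith
        have := mul_left_cancel₀ h3 hab
        exact_mod_cast this
      · intro i hi
        rw [mem_coe, mem_Ico] at hi
        rw [mem_coe, mem_Ioo]
        have h3 : (1 : ℤ) ≤ i := by exact_mod_cast hi.1
        have h4 : (i : ℤ) + 1 ≤ p := by exact_mod_cast hi.2
        push_cast
        constructor <;> nlinarith
      · intro k hk hk2
        rw [mem_Ioo] at hk
        rw [if_neg, mul_zero]
        rintro ⟨r, hr⟩
        apply hk2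
        have h3 : 0 < r := by
          by_contra h4
          nlinarith
        have h5 : r < p := by
          by_contra h4
          push_cast at hk
          nlinarith
        refine ⟨r.toNat, ?_, ?_⟩
        · rw [mem_coe, mem_Ico]
          omega
        · show (m : ℤ) * (r.toNat : ℤ) = k
          rw [Int.toNat_of_nonneg h3.le, hr]
      · intro i _
        simp
    rw [← e1]
    have e2 : ∀ i : ℕ, jacobiSym (J ^ 2 + c * J * (m * i) + d * (m * i) ^ 2) (p * m) *
        legendreSym p (m * i) = jacobiSym (J ^ 2) m *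
        (quadraticChar (ZMod p) ((J : ZMod p) ^ 2 + c * (J : ZMod p) * ((m : ZMod p) * (i : ZMod p))
          + d * ((m : ZMod p) * (i : ZMod p)) ^ 2) *
          quadraticChar (ZMod p) ((m : ZMod p) * (i : ZMod p))) := by
      intro i
      rw [jacobiSym.mul_right, ← jacobiSym.legendreSym.to_jacobiSym, legendreSym, legendreSym]
      have h3 : jacobiSym (J ^ 2 + c * J * (m * i) + d * (m * i) ^ 2) m = jacobiSym (J ^ 2) m := by
        apply jacobiSym.mod_left'
        rw [show J ^ 2 + c * J * (m * i) + d * (m * i) ^ 2 =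
          J ^ 2 + m * (c * J * i + d * (m * i ^ 2)) by ring]
        exact Int.add_mul_emod_self_left _ _ _
      rw [h3]
      push_cast
      ring
    have e3 : ∑ i ∈ Ico 1 p, jacobiSym (J ^ 2 + c * J * (m * i) + d * (m * i) ^ 2) (p * m) *
        legendreSym p (m * i) = ∑ i ∈ range p,
        jacobiSym (J ^ 2 + c * J * (m * i) + d * (m * i) ^ 2) (p * m) *
        legendreSym p (m * i) := by
      rw [range_eq_Ico, Finset.sum_eq_sum_Ico_succ_bot (show 0 < p by omega)]
      simp
    rw [e3, sum_congr rfl fun i _ => e2 i, ← mul_sum,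
      ← sum_zmod (fun x : ZMod p => quadraticChar (ZMod p) ((J : ZMod p) ^ 2 +
        c * (J : ZMod p) * ((m : ZMod p) * x) + d * ((m : ZMod p) * x) ^ 2) *
          quadraticChar (ZMod p) ((m : ZMod p) * x))]
    have e4 := Fintype.sum_equiv (Equiv.mulLeft₀ (m : ZMod p) hm0)
      (fun x : ZMod p => quadraticChar (ZMod p) ((J : ZMod p) ^ 2 +
        c * (J : ZMod p) * ((m : ZMod p) * x) + d * ((m : ZMod p) * x) ^ 2) *
          quadraticChar (ZMod p) ((m : ZMod p) * x))
      (fun x : ZMod p => quadraticChar (ZMod p) ((J : ZMod p) ^ 2 +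
        c * (J : ZMod p) * x + d * x ^ 2) * quadraticChar (ZMod p) x) (fun x => rfl)
    rw [e4, sum_char_good hg h2 h7, mul_zero]

/-- the case of a prime `n` -/
lemma br_prime {c d : ℤ} (hg : Good c d) (h4 : p % 4 = 1)
    (h7 : quadraticChar (ZMod p) (-7) = -1) : br c d p = 0 := by
  have h2 : p ≠ 2 := by
    rintro h
    rw [h] at h4
    omega
  have hp5 : 5 ≤ p := by
    have := hp.out.two_le
    omega
  have hp1 : (1 : ZMod p) ≠ 0 := one_ne_zero
  have hm1 : quadraticChar (ZMod p) (-1) = 1 := by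
    rw [quadraticChar_one_iff_isSquare (by simp)]
    exact ZMod.exists_sq_eq_neg_one_iff.mpr (by omega)
  have hchar : ringChar (ZMod p) ≠ 2 := by
    rw [ZMod.ringChar_zmod_n]
    exact h2
  unfold br
  rw [← Matrix.exists_mulVec_eq_zero_iff]
  refine ⟨fun k => 1 - legendreSym p (k : ℤ), ?_, ?_⟩
  · intro h
    obtain ⟨a, ha⟩ := quadraticChar_exists_neg_one hchar
    have hlt := ZMod.val_lt a
    have hval : ((a.val : ℕ) : ZMod p) = a := ZMod.natCast_zmod_val a
    have h0 : a.val ≠ 0 := by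
      intro h0
      rw [h0] at hval
      rw [← hval] at ha
      simp at ha
    have h1 : a.val ≠ 1 := by
      intro h0
      rw [h0] at hval
      rw [← hval] at ha
      simp at ha
    have h3 : a.val ≠ p - 1 := by
      intro h0
      rw [h0, Nat.cast_sub (by omega), ZMod.natCast_self] at hval
      rw [← hval] at ha
      norm_num [hm1] at ha
    have hmem : ((a.val : ℕ) : ℤ) ∈ Finset.Ioo (1 : ℤ) ((p : ℤ) - 1) := by
      rw [mem_Ioo]
      omega
    have h5 := congrFun h ⟨((a.val : ℕ) : ℤ), hmem⟩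
    simp only [Pi.zero_apply] at h5
    rw [legendreSym, Int.cast_natCast, hval, ha] at h5
    norm_num at h5
  · funext j
    simp only [Matrix.mulVec, dotProduct, Matrix.of_apply, Pi.zero_apply]
    rw [Finset.sum_coe_sort (Finset.Ioo (1 : ℤ) ((p : ℤ) - 1))
      (fun k : ℤ => jacobiSym ((j : ℤ) ^ 2 + c * j * k + d * k ^ 2) p *
        (1 - legendreSym p k))]
    have hj := (mem_Ioo.mp j.2)
    set J : ℤ := (j : ℤ) with hJ
    have hJ0 : (J : ZMod p) ≠ 0 := by
      rw [Ne, ZMod.intCast_zmod_eq_zero_iff_dvd]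
      intro h
      have := Int.le_of_dvd (by linarith) h
      linarith
    have e1 : ∑ k ∈ Finset.Ioo (1 : ℤ) ((p : ℤ) - 1),
        jacobiSym (J ^ 2 + c * J * k + d * k ^ 2) p * (1 - legendreSym p k) =
        ∑ i ∈ Ico 1 p, jacobiSym (J ^ 2 + c * J * i + d * i ^ 2) p *
          (1 - legendreSym p i) := by
      apply Finset.sum_of_injOn (fun k : ℤ => k.toNat)
      · intro a ha b hb hab
        rw [mem_coe, mem_Ioo] at ha hb
        simp only at hab
        omega
      · intro k hk
        rw [mem_coe, mem_Ioo] at hk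
        rw [mem_coe, mem_Ico]
        show 1 ≤ k.toNat ∧ k.toNat < p
        omega
      · intro i hi hi2
        rw [mem_Ico] at hi
        have h3 : i = 1 ∨ i = p - 1 := by
          by_contra h5
          apply hi2
          refine ⟨(i : ℤ), ?_, ?_⟩
          · rw [mem_coe, mem_Ioo]
            omega
          · simp
        rcases h3 with h3 | h3
        · rw [h3]
          simp [legendreSym]
        · have h5 : legendreSym p (i : ℤ) = 1 := by
            rw [legendreSym, Int.cast_natCast, h3, Nat.cast_sub (by omega), ZMod.natCast_self]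
            simp [hm1]
          rw [h5]
          simp
      · intro k hk
        rw [mem_Ioo] at hk
        rw [Int.toNat_of_nonneg (by linarith)]
    have e2 : ∀ i : ℕ, jacobiSym (J ^ 2 + c * J * i + d * i ^ 2) p * (1 - legendreSym p i) =
        quadraticChar (ZMod p) ((J : ZMod p) ^ 2 + c * (J : ZMod p) * (i : ZMod p)
          + d * (i : ZMod p) ^ 2) -
        quadraticChar (ZMod p) ((J : ZMod p) ^ 2 + c * (J : ZMod p) * (i : ZMod p)
          + d * (i : ZMod p) ^ 2) * quadraticChar (ZMod p) (i : ZMod p) := by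
      intro i
      rw [← jacobiSym.legendreSym.to_jacobiSym, legendreSym, legendreSym]
      push_cast
      ring
    have e3 : ∑ i ∈ range p, jacobiSym (J ^ 2 + c * J * i + d * i ^ 2) p *
          (1 - legendreSym p i) = 1 + ∑ i ∈ Ico 1 p,
          jacobiSym (J ^ 2 + c * J * i + d * i ^ 2) p * (1 - legendreSym p i) := by
      rw [range_eq_Ico, Finset.sum_eq_sum_Ico_succ_bot (show 0 < p by omega)]
      congr 1
      rw [e2]
      have h5 : quadraticChar (ZMod p) ((J : ZMod p) ^ 2) = 1 := quadraticChar_sq_one' hJ0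
      simp [h5]
    rw [e1]
    have e4 : ∑ i ∈ range p, jacobiSym (J ^ 2 + c * J * i + d * i ^ 2) p *
          (1 - legendreSym p i) = 1 := by
      rw [sum_congr rfl fun i _ => e2 i, sum_sub_distrib,
        ← sum_zmod (fun x : ZMod p => quadraticChar (ZMod p) ((J : ZMod p) ^ 2 +
          c * (J : ZMod p) * x + d * x ^ 2)),
        ← sum_zmod (fun x : ZMod p => quadraticChar (ZMod p) ((J : ZMod p) ^ 2 +
          c * (J : ZMod p) * x + d * x ^ 2) * quadraticChar (ZMod p) x),
        sum_char_good hg h2 h7, sum_quad h2 _ (hg.disc p h2 h7) hJ0, hg.chi p h4 h7]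
      · norm_num
      · intro hd
        have := hg.chi p h4 h7
        rw [hd] at this
        simp at this
    linarith

end

/-- the vanishing for all `n` -/
theorem br_zero {c d : ℤ} (hg : Good c d) {n : ℕ} (h4 : n % 4 = 1) (h7 : jacobiSym n 7 = -1) :
    br c d n = 0 := by
  obtain ⟨p, hp, ⟨m, rfl⟩, hp7⟩ := exists_prime h7
  have hF : Fact p.Prime := ⟨hp⟩
  have h2 : p ≠ 2 := by
    rintro rfl
    omega
  have hp3 : 3 ≤ p := by
    have := hp.two_le
    omega
  have h7' := chi_neg7 h2 hp7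
  rcases Nat.eq_zero_or_pos m with h0 | h0
  · rw [h0] at h4
    omega
  rcases Nat.eq_or_lt_of_le (show 1 ≤ m from h0) with h1 | h1
  · rw [← h1, mul_one] at h4 ⊢
    exact br_prime hg h4 h7'
  · have hm3 : 3 ≤ m := by
      by_contra h5
      have h6 : m = 2 := by omega
      rw [h6] at h4
      omega
    by_cases hpm : p ∣ m
    · exact br_sq hp3 hm3 hpm
    · exact br_comp hg h2 h7' hm3 hpm

end Pool.Agent.V11304.JS
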