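import Mathlib

/-!
# A supersingularity criterion by hand

For `p` odd and `n = (p-1)/2` the number `T n a b`, the coefficient of `X^n` in `(X² + a X + b)^n`, is the
Hasse invariant of `y² = x (x² + a x + b)` in characteristic `p`. It is invariant under translations and
under the isogeny of degree two, and we deduce `T n 21 112 = 0` if `-7` is not a square modulo `p`.
-/

set_option autoImplicit false

namespace Pool.Agent.V11304.JS

open Finset Polynomial

/-- the coefficient of `X^n` in `(X² + a X + b)^n` -/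
def T {K : Type*} [CommRing K] (n : ℕ) (a b : K) : K :=
  ∑ i ∈ range (n + 1), (n.choose (2 * i) : K) * ((2 * i).choose i : K) * a ^ (n - 2 * i) * b ^ i

section
variable {K : Type*} [CommRing K]

lemma T_scale (n : ℕ) (a b c : K) : T n (c * a) (c ^ 2 * b) = c ^ n * T n a b := by
  unfold T
  rw [mul_sum]
  apply sum_congr rfl
  intro i _
  by_cases h : 2 * i ≤ n
  · have h1 : c ^ n = c ^ (n - 2 * i) * (c ^ 2) ^ i := by
      rw [← pow_mul, ← pow_add]
      congr 1
      omega
    rw [h1, mul_pow, mul_pow]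
    ring
  · rw [Nat.choose_eq_zero_of_lt (by omega)]
    simp

lemma T_map {L : Type*} [CommRing L] (f : K →+* L) (n : ℕ) (a b : K) :
    f (T n a b) = T n (f a) (f b) := by
  unfold T
  rw [map_sum]
  apply sum_congr rfl
  intro i _
  simp

/-- the coefficient of `X^(2n)` in the `n`-th power of `X³ + a X² + b X` -/
lemma coeff_cubic (n : ℕ) (a b : K) :
    ((X ^ 3 + C a * X ^ 2 + C b * X) ^ n : K[X]).coeff (2 * n) = T n a b := by
  have h1 : (X ^ 3 + C a * X ^ 2 + C b * X : K[X]) = ((X ^ 2 + C b) + C a * X) * X := by ring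
  rw [h1, mul_pow, show 2 * n = n + n by ring, coeff_mul_X_pow, add_pow, finsetSum_coeff]
  have h2 : ∀ m ∈ range (n + 1), (((X ^ 2 + C b) ^ m * (C a * X) ^ (n - m) *
      ((n.choose m : ℕ) : K[X])).coeff n) =
      if Even m then (n.choose m : K) * (m.choose (m / 2) : K) * a ^ (n - m) * b ^ (m / 2)
      else 0 := by
    intro m hm
    have hm' : m ≤ n := by
      have := mem_range.mp hm
      omega
    have h3 : ((X ^ 2 + C b) ^ m * (C a * X) ^ (n - m) * ((n.choose m : ℕ) : K[X])) =
        C (a ^ (n - m) * (n.choose m : K)) * (X ^ 2 + C b) ^ m * X ^ (n - m) := by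
      rw [mul_pow, ← C_pow, C_mul, C_eq_natCast]
      ring
    have h4 := coeff_mul_X_pow (C (a ^ (n - m) * (n.choose m : K)) * (X ^ 2 + C b) ^ m) (n - m) m
    rw [Nat.add_sub_cancel' hm'] at h4
    rw [h3, h4, coeff_C_mul]
    have h5 : ((X ^ 2 + C b) ^ m : K[X]) = expand K 2 ((X + C b) ^ m) := by
      simp
    rw [h5, coeff_expand (by norm_num)]
    by_cases he : Even m
    · rw [if_pos (even_iff_two_dvd.mp he), if_pos he, coeff_X_add_C_pow]
      have h6 : m - m / 2 = m / 2 := by
        obtain ⟨r, hr⟩ := he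
        omega
      rw [h6]
      ring
    · rw [if_neg (fun h => he (even_iff_two_dvd.mpr h)), if_neg he, mul_zero]
  rw [sum_congr rfl h2, ← sum_filter]
  set g : ℕ → K := fun m => (n.choose m : K) * (m.choose (m / 2) : K) * a ^ (n - m) * b ^ (m / 2)
    with hg
  have h6 : T n a b = ∑ i ∈ range (n + 1), g (2 * i) := by
    unfold T
    apply sum_congr rfl
    intro i _
    rw [hg]
    simp only
    rw [show 2 * i / 2 = i by omega]
  rw [h6, ← sum_image (f := g) (g := fun i => 2 * i) (s := range (n + 1))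
    (fun x _ y _ h => by simpa using h)]
  apply sum_subset
  · intro m hm
    rw [mem_filter, mem_range] at hm
    obtain ⟨r, hr⟩ := hm.2
    rw [mem_image]
    exact ⟨r, mem_range.mpr (by omega), by omega⟩
  · intro m hm hm2
    rw [mem_image] at hm
    obtain ⟨r, _, hr⟩ := hm
    rw [mem_filter, mem_range, not_and] at hm2
    have h7 : n < m := by
      by_contra h8
      exact hm2 (by omega) ⟨r, by omega⟩
    rw [Nat.choose_eq_zero_of_lt h7]
    simp

end

section
variable {K : Type*} [Field K] {p : ℕ} [hp : Fact p.Prime] [CharP K p]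

lemma coeff_taylor_sub_one (G : K[X]) (hG : G.natDegree < 2 * p - 1) (s : K) :
    (G.comp (X + C s)).coeff (p - 1) = G.coeff (p - 1) := by
  have hpos := hp.out.pos
  rw [← taylor_apply, taylor_coeff, hasseDeriv_apply, sum_over_range' _ _ (2 * p - 1) hG,
    eval_finsetSum]
  · rw [sum_eq_single (p - 1)]
    · simp
    · intro i hi hne
      rw [mem_range] at hi
      rw [eval_monomial]
      rcases lt_or_gt_of_ne hne with h | h
      · rw [Nat.choose_eq_zero_of_lt h]
        simp
      · have h1 : p ∣ i.choose (p - 1) := by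
          have h2 := Nat.Prime.dvd_choose_add (p := p) (a := p - 1) (b := i - (p - 1)) (hap := by omega)
            (hbp := by omega) (h := by omega) (hp := hp.out)
          rwa [show p - 1 + (i - (p - 1)) = i by omega] at h2
        have h3 : ((i.choose (p - 1) : ℕ) : K) = 0 := (CharP.cast_eq_zero_iff K p _).mpr h1
        rw [h3]
        simp
    · intro h
      rw [mem_range] at h
      omega
  · intro i
    simp

lemma natDegree_cubic_pow (n : ℕ) (a b : K) :
    ((X ^ 3 + C a * X ^ 2 + C b * X) ^ n : K[X]).natDegree ≤ 3 * n := by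
  refine natDegree_pow_le.trans ?_
  rw [mul_comm]
  apply Nat.mul_le_mul_right
  compute_degree

lemma T_trans {n : ℕ} (hn : p = 2 * n + 1) {a b s : K} (hs : s ^ 3 + a * s ^ 2 + b * s = 0) :
    T n (a + 3 * s) (b + 2 * a * s + 3 * s ^ 2) = T n a b := by
  rw [← coeff_cubic, ← coeff_cubic]
  have h1 := coeff_taylor_sub_one (p := p) ((X ^ 3 + C a * X ^ 2 + C b * X) ^ n : K[X])
    (by have := natDegree_cubic_pow n a b; omega) s
  rw [show p - 1 = 2 * n by omega] at h1
  rw [← h1, pow_comp]
  congr 2
  simp only [add_comp, mul_comp, pow_comp, X_comp, C_comp]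
  have h2 : (C s ^ 3 + C a * C s ^ 2 + C b * C s : K[X]) = 0 := by
    simp only [← C_mul, ← C_pow, ← C_add, hs, C_0]
  simp only [C_add, C_mul, C_pow]
  have h3 : (C 3 : K[X]) = 3 := rfl
  have h4 : (C 2 : K[X]) = 2 := rfl
  rw [h3, h4]
  linear_combination -h2

lemma choose_half {n : ℕ} (hn : p = 2 * n + 1) (i : ℕ) (hi : i ≤ n) :
    ((2 * i).choose i : K) = (n.choose i : K) * (-4) ^ i := by
  induction i with
  | zero => simp
  | succ i ih =>
    have h1 := ih (by omega)
    have h2 := Nat.succ_mul_centralBinom_succ i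
    rw [Nat.centralBinom, Nat.centralBinom] at h2
    have h3 := Nat.choose_succ_right_eq n i
    have h4 : ((i + 1 : ℕ) : K) ≠ 0 := by
      rw [Ne, CharP.cast_eq_zero_iff K p]
      intro h
      have := Nat.le_of_dvd (by omega) h
      omega
    have h5 : (p : K) = 0 := CharP.cast_eq_zero K p
    rw [hn] at h5
    push_cast at h5
    have h2' : ((i : K) + 1) * ((2 * (i + 1)).choose (i + 1) : K) =
        2 * (2 * i + 1) * ((2 * i).choose i : K) := by
      have := congrArg (Nat.cast (R := K)) h2
      push_cast at this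
      exact this
    have h3' : (n.choose (i + 1) : K) * (i + 1) = (n.choose i : K) * (n - i) := by
      have h6 : ((n - i : ℕ) : K) = (n : K) - i := Nat.cast_sub (by omega)
      rw [← h6]
      have := congrArg (Nat.cast (R := K)) h3
      push_cast at this
      push_cast
      exact this
    apply mul_left_cancel₀ h4
    push_cast
    rw [h2', h1, pow_succ]
    linear_combination (-4 : K) * (-4) ^ i * (-1) * h3' +
      2 * (n.choose i : K) * (-4) ^ i * h5

lemma T_iso {n : ℕ} (hn : p = 2 * n + 1) (a b : K) :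
    T n (-2 * a) (a ^ 2 - 4 * b) = T n a b := by
  rw [← coeff_cubic]
  have h1 := coeff_taylor_sub_one (p := p)
    ((X ^ 3 + C (-2 * a) * X ^ 2 + C (a ^ 2 - 4 * b) * X) ^ n : K[X])
    (by have := natDegree_cubic_pow n (-2 * a) (a ^ 2 - 4 * b); omega) a
  rw [show p - 1 = 2 * n by omega] at h1
  rw [← h1, pow_comp]
  have h2 : (X ^ 3 + C (-2 * a) * X ^ 2 + C (a ^ 2 - 4 * b) * X : K[X]).comp (X + C a) =
      (X + C a) * (X ^ 2 + C (-4 * b)) := by
    simp only [add_comp, mul_comp, pow_comp, X_comp, C_comp]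
    have h3 : (C (-2 * a) : K[X]) = -2 * C a := by
      rw [C_mul, C_neg]
      rfl
    have h4 : (C (a ^ 2 - 4 * b) : K[X]) = C a ^ 2 - 4 * C b := by
      rw [C_sub, C_mul, C_pow]
      rfl
    have h5 : (C (-4 * b) : K[X]) = -4 * C b := by
      rw [C_mul, C_neg]
      rfl
    rw [h3, h4, h5]
    ring
  rw [h2, mul_pow, add_pow (X ^ 2 : K[X]), mul_sum, finsetSum_coeff]
  have h3 : ∀ m ∈ range (n + 1), ((X + C a) ^ n * ((X ^ 2) ^ m * C (-4 * b) ^ (n - m) *
      ((n.choose m : ℕ) : K[X]))).coeff (2 * n) =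
      (n.choose m : K) * (-4 * b) ^ (n - m) * (a ^ (n - (2 * n - 2 * m)) *
        (n.choose (2 * n - 2 * m) : K)) := by
    intro m hm
    have hm' : m ≤ n := by
      have := mem_range.mp hm
      omega
    have h4 : ((X + C a) ^ n * ((X ^ 2) ^ m * C (-4 * b) ^ (n - m) *
        ((n.choose m : ℕ) : K[X]))) =
        C ((n.choose m : K) * (-4 * b) ^ (n - m)) * (X + C a) ^ n * X ^ (2 * m) := by
      rw [C_mul (a := (n.choose m : K)), C_pow, C_eq_natCast, ← pow_mul]
      ring
    rw [h4, coeff_mul_X_pow', if_pos (by omega), coeff_C_mul, coeff_X_add_C_pow]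
  rw [sum_congr rfl h3, ← sum_range_reflect]
  unfold T
  apply sum_congr rfl
  intro i hi
  have hi' : i ≤ n := by
    have := mem_range.mp hi
    omega
  rw [show n + 1 - 1 - i = n - i by omega, show n - (n - i) = i by omega,
    show 2 * n - 2 * (n - i) = 2 * i by omega, Nat.choose_symm hi', choose_half hn i hi', mul_pow]
  ring

end

end Pool.Agent.V11304.JS
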